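import Pool.Agent.H697.CL.Mono
import Pool.Agent.H697.CL.Tup
import Pool.Agent.H697.IR.Mult
import Pool.Agent.H697.IR.Reg

/-!
# Unique games: the clustering coefficient decides

The clustering coefficient `clus` of a bipartite graph is the mean value of
`|N(v) ∩ N(v')| / |N(v) ∪ N(v')|` for a random edge `(u, v)` and a random neighbour `v'` of `u`.
The graph is clustered with constant `γ` if this is at least `γ`, for one of the two choices of the
left side.  (Parallel edges are counted once.)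

If all games of a class have at most `M` parallel edges between any two vertices and are clustered
with constant `γ`, then value at least `1 - ε` and value at most `δ` are told apart in polynomial
time on this class, for every alphabet and all `ε`, `δ` with `M (2 ε + δ) < γ`.  So the conjecture
for the class is false unless `P = NP`.

Complete dichotomy for classes with finitely many forbidden induced subgraphs.  Let `H` be a finite
family of finite graphs, and consider the games with at most `M` parallel edges whose constraint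
graph has no induced subgraph `H i`; there is no condition on the degrees.  If some `H i` is a
forest, then there is a `γ > 0` such that all these games are clustered with constant `γ`, so the
conjecture for this class is false unless `P = NP`.  If no `H i` is a forest, then the conjecture
for this class is equivalent to the Unique Games Conjecture, even for regular constraint graphs
without parallel edges: for every alphabet and all `δ < δ'` there is a `D`, the same for all
families `H` without forests, such that for every `ε` the general problem with parameters `ε, δ`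
reduces in polynomial time to the problem with parameters `ε, δ'` for the simple games of this class
with a `D`-regular constraint graph.

The result on clustered games is sharp.  For `0 ≤ γ < 1` and `δ > γ` there is a `δ' > 0` such that
for every alphabet and every `ε` the general problem with parameters `ε, δ'` reduces in polynomial
time to the problem with parameters `ε, δ` for the simple games with clustering coefficient at least
`γ`.  For `γ = 1 / r` this holds for the simple games all of whose left vertices have degree `r`,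
too (all these games have clustering coefficient at least `1 / r`).  So the Unique Games Conjecture
is equivalent to the statement that for all `r ≥ 2`, `δ > 1 / r` and `ε > 0` some alphabet makes the
problem with the parameters `ε, δ` hard for the games with left degrees `r`.

For the following classes either the games are clustered, or the conjecture for the class is
equivalent to the Unique Games Conjecture, too.

1. The simple games whose constraint graph belongs to a class `C` of graphs which is closed under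
   lifts (coverings) of girth greater than `g`.  The first case holds if `|E| ≤ D |V|` for the
   graphs in `C`, with `γ = 1 / (8 D²)`, the second case holds if there is no such `D`.  More
   precisely, for every alphabet and all `δ < δ'` there is a `d` such that the general problem with
   parameters `ε, δ` reduces in polynomial time to the problem with parameters `ε, δ'` for the games
   on `C`, if `C` contains one graph without isolated vertices with more than `d |V|` edges.
2. The simple games whose constraint graph has no subgraph `H i`, for a finite family `H`.  The first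
   case holds if some `H i` is a forest with `h` vertices, with `γ = 1 / (8 h²)`, the second case
   holds otherwise.

The definitions used in the statement are in `Pool/Agent/H697/CL/Easy.lean` (`jac`, `clus`,
`Clustered`), `Pool/Agent/H697/IR/Defs.lean` (`mirror`, `NoInd`),
`Pool/Agent/H697/IR/RegDefs.lean` (`Reg`, `RegInd`), `Pool/Agent/H697/IR/MultDefs.lean` (`Mult`,
`SideClusteredM`, `NoIndM`),
`Pool/Agent/H697/CL/Tup.lean` (`LeftReg`),
`Pool/Agent/H697/CL/Real.lean` (`nb`, `nR`), `Pool/Agent/H697/LF/Bound.lean`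
(`GraphClass`, `LiftClosed`, `Sparse`, `On`), `Pool/Agent/H697/CL/Mono.lean` (`NoSub`),
`Pool/Agent/H697/LF/Lift.lean` (`graphOf`, `IsLift`), `Pool/Agent/H697/Exp/Girth.lean`
(`GirthGT`), `Pool/Agent/H697/UG/Hard.lean` (`Hard`, `Easy`, `UGC`),
`Pool/Agent/H697/UG/Defs.lean` (`Game`, `IsGame`, `Sat`, `numSat`, `Yes`, `No`, `Simple`, `cgraph`,
`degL`, `degR`), `Pool/Agent/H697/UG/Complete.lean` (`edges`), `Pool/Agent/H697/Forest/Bip.lean`
(`bip`) and `Pool/Graph/R_seed8/NPC/` (`PolyTime`, `InNP`, `InP`, `InPP`, `bits`).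
-/

namespace Pool.Agent.Results.MP_325f1f_lc.ClusteringDichotomy

open Pool.Agent.H697 Pool.Agent.NPC Pool.Agent.H697.UG Pool.Agent.H697.LF Pool.Agent.H697.CL
  Pool.Agent.H697.Exp Pool.Agent.H697.IR

/-- The easy side. -/
theorem easy_of_clustered {Cl : Game → Prop} {M : ℕ} {γ : ℝ}
    (hCl : ∀ I, I ≠ [] → Cl I → SideClusteredM M γ I) {q : ℕ} (hq : 0 < q) {ε δ : ℝ}
    (h : M * (2 * ε + δ) < γ) : Easy Cl q ε δ := by
  obtain ⟨P, hP, hsep⟩ := easy_mult_UG hq h
  exact ⟨P, hP, fun I hI => ⟨fun hy => (hsep I (hCl I hy.1.1 hI)).1 hy,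
    fun hn => (hsep I (hCl I hn.1.1 hI)).2 hn⟩⟩

/-- The conjecture for clustered games. -/
theorem collapse {Cl : Game → Prop} {M : ℕ} {γ : ℝ} (hγ : 0 < γ)
    (hCl : ∀ I, I ≠ [] → Cl I → SideClusteredM M γ I) (hU : UGC Cl) :
    ∀ L : Set (List Bool), InNP L → InP L := by
  have hM : (0 : ℝ) ≤ M := by positivity
  set t : ℝ := min γ 1 / (4 * (M + 1)) with ht
  have h0 : 0 < t := by positivity
  have h1 : min γ 1 ≤ γ := min_le_left _ _
  have h2 : min γ 1 ≤ 1 := min_le_right _ _
  have h3 : t * (4 * (M + 1)) = min γ 1 := by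
    rw [ht]
    field_simp
  obtain ⟨q, hq, hhard⟩ := hU t t h0 h0 (by nlinarith)
  exact hhard.collapse (easy_of_clustered hCl hq (by nlinarith))

theorem ugc_iff_clustered : UGC (fun _ => True) ↔ ∀ γ ε δ : ℝ, 0 < γ → γ < δ → 0 < ε →
    ε + δ < 1 → ∃ q : ℕ, 0 < q ∧ Hard (Clustered γ) q ε δ := by
  constructor
  · intro hU γ ε δ h0 h1 hε hεδ
    obtain ⟨δ', hδ', h⟩ := hard_clus_UG h0.le (by linarith) h1
    obtain ⟨q, hq, hh⟩ := hU ε (min δ' δ) hε (lt_min hδ' (by linarith))
      (by linarith [min_le_right δ' δ])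
    exact ⟨q, hq, (h q ε hq).1 (hh.mono (fun _ h => h) le_rfl (min_le_left _ _))⟩
  · intro h ε δ hε hδ hεδ
    obtain ⟨q, hq, hh⟩ := h (δ / 2) ε δ (by linarith) (by linarith) hε hεδ
    exact ⟨q, hq, hh.mono (fun _ _ => trivial) le_rfl le_rfl⟩

theorem ugc_iff_leftReg : UGC (fun _ => True) ↔ ∀ r : ℕ, 2 ≤ r → ∀ ε δ : ℝ, 0 < ε → 1 / r < δ →
    ε + δ < 1 → ∃ q : ℕ, 0 < q ∧ Hard (LeftReg r) q ε δ := by
  constructor
  · intro hU r hr ε δ hε h1 hεδ
    have hr0 : 0 < r := by omega
    have hrr : (0 : ℝ) < r := by exact_mod_cast hr0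
    have h0 : (0 : ℝ) < 1 / r := by positivity
    obtain ⟨δ', hδ', h⟩ := hard_left_UG hr0 h1
    obtain ⟨q, hq, hh⟩ := hU ε (min δ' δ) hε (lt_min hδ' (by linarith))
      (by linarith [min_le_right δ' δ])
    exact ⟨q, hq, (h q ε hq).1 (hh.mono (fun _ h => h) le_rfl (min_le_left _ _))⟩
  · intro h ε δ hε hδ hεδ
    obtain ⟨n, hn⟩ := exists_nat_gt (1 / δ)
    have h1 : (1 : ℝ) / ((n + 2 : ℕ) : ℝ) < δ := by
      rw [div_lt_iff₀ hδ] at hn
      rw [div_lt_iff₀ (by positivity)]
      push_cast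
      nlinarith
    obtain ⟨q, hq, hh⟩ := h (n + 2) (by omega) ε δ hε h1 hεδ
    exact ⟨q, hq, hh.mono (fun _ _ => trivial) le_rfl le_rfl⟩

/-- The classes given by finitely many forbidden induced subgraphs, without forests. -/
theorem noForest {ι : Type} [Finite ι] (V : ι → Type) (H : ∀ i, SimpleGraph (V i))
    (hH : ∀ i, ¬ (H i).IsAcyclic) :
    (∀ M : ℕ, 0 < M → (UGC (NoIndM H M) ↔ UGC fun _ => True)) ∧
      (UGC (fun _ => True) ↔ ∀ ε δ : ℝ, 0 < ε → 0 < δ → ε + δ < 1 →
        ∃ q D : ℕ, 0 < q ∧ Hard (RegInd H D) q ε δ) := by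
  have hreg : UGC (fun _ => True) → ∀ ε δ : ℝ, 0 < ε → 0 < δ → ε + δ < 1 →
      ∃ q D : ℕ, 0 < q ∧ Hard (RegInd H D) q ε δ := by
    intro hU ε δ hε hδ hεδ
    obtain ⟨q, hq, h⟩ := hU ε (δ / 2) hε (by linarith) (by linarith)
    obtain ⟨D, hD⟩ := regular_UG hq (show δ / 2 < δ by linarith)
    exact ⟨q, D, hq, (hD V H hH ε).1 h⟩
  refine ⟨fun M hM => ⟨fun hU ε δ hε hδ hεδ => ?_, fun hU ε δ hε hδ hεδ => ?_⟩,
    ⟨hreg, fun h ε δ hε hδ hεδ => ?_⟩⟩
  · obtain ⟨q, hq, h⟩ := hU ε δ hε hδ hεδ
    exact ⟨q, hq, h.mono (fun _ _ => trivial) le_rfl le_rfl⟩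
  · obtain ⟨q, D, hq, h⟩ := hreg hU ε δ hε hδ hεδ
    exact ⟨q, hq, h.mono (fun _ h => noIndM_of_noInd h.1 hM) le_rfl le_rfl⟩
  · obtain ⟨q, D, hq, h⟩ := h ε δ hε hδ hεδ
    exact ⟨q, hq, h.mono (fun _ _ => trivial) le_rfl le_rfl⟩

/-- The clustering coefficient decides. -/
theorem result :
    (∀ (Cl : Game → Prop) (M : ℕ) (γ : ℝ), (∀ I, I ≠ [] → Cl I → SideClusteredM M γ I) →
      (∀ (q : ℕ) (ε δ : ℝ), 0 < q → M * (2 * ε + δ) < γ → Easy Cl q ε δ) ∧
      (0 < γ → UGC Cl → ∀ L : Set (List Bool), InNP L → InP L)) ∧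
    ((∀ {ι : Type} [Finite ι] (V : ι → Type) [∀ i, Finite (V i)] (H : ∀ i, SimpleGraph (V i)),
      (∀ i, (H i).IsAcyclic → ∃ γ : ℝ, 0 < γ ∧ ∀ (M : ℕ) (I : Game), I ≠ [] → NoIndM H M I →
        SideClusteredM M γ I) ∧
      ((∀ i, ¬ (H i).IsAcyclic) →
        (∀ M : ℕ, 0 < M → (UGC (NoIndM H M) ↔ UGC fun _ => True)) ∧
        (UGC (fun _ => True) ↔ ∀ ε δ : ℝ, 0 < ε → 0 < δ → ε + δ < 1 →
          ∃ q D : ℕ, 0 < q ∧ Hard (RegInd H D) q ε δ))) ∧
    ∀ (q : ℕ) (δ δ' : ℝ), 0 < q → δ < δ' → ∃ D : ℕ,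
      ∀ {ι : Type} [Finite ι] (V : ι → Type) (H : ∀ i, SimpleGraph (V i)),
        (∀ i, ¬ (H i).IsAcyclic) → ∀ ε : ℝ,
          (Hard (fun _ => True) q ε δ → Hard (RegInd H D) q ε δ') ∧
          (Easy (RegInd H D) q ε δ' → Easy (fun _ => True) q ε δ)) ∧
    ((∀ γ δ : ℝ, 0 ≤ γ → γ < 1 → γ < δ → ∃ δ' : ℝ, 0 < δ' ∧ ∀ (q : ℕ) (ε : ℝ), 0 < q →
      (Hard (fun _ => True) q ε δ' → Hard (Clustered γ) q ε δ) ∧
      (Easy (Clustered γ) q ε δ → Easy (fun _ => True) q ε δ')) ∧
    (UGC (fun _ => True) ↔ ∀ γ ε δ : ℝ, 0 < γ → γ < δ → 0 < ε → ε + δ < 1 →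
      ∃ q : ℕ, 0 < q ∧ Hard (Clustered γ) q ε δ) ∧
    (∀ r : ℕ, 0 < r → (∀ I, I ≠ [] → LeftReg r I → Clustered (1 / r) I) ∧
      ∀ δ : ℝ, 1 / r < δ → ∃ δ' : ℝ, 0 < δ' ∧ ∀ (q : ℕ) (ε : ℝ), 0 < q →
        (Hard (fun _ => True) q ε δ' → Hard (LeftReg r) q ε δ) ∧
        (Easy (LeftReg r) q ε δ → Easy (fun _ => True) q ε δ')) ∧
    (UGC (fun _ => True) ↔ ∀ r : ℕ, 2 ≤ r → ∀ ε δ : ℝ, 0 < ε → 1 / r < δ → ε + δ < 1 →
      ∃ q : ℕ, 0 < q ∧ Hard (LeftReg r) q ε δ)) ∧
    ((∀ (g : ℕ) (C : GraphClass), LiftClosed g C →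
      (∀ D : ℕ, 0 < D → Sparse C D → ∀ I, I ≠ [] → On C I → Clustered (1 / (8 * D ^ 2)) I) ∧
      ((∀ D : ℕ, ¬ Sparse C D) → (UGC (On C) ↔ UGC fun _ => True))) ∧
    ∀ (q : ℕ) (δ δ' : ℝ), 0 < q → δ < δ' → ∃ d : ℕ, ∀ (g : ℕ) (C : GraphClass), LiftClosed g C →
      ¬ Sparse C d → ∀ ε : ℝ, (Hard (fun _ => True) q ε δ → Hard (On C) q ε δ') ∧
        (Easy (On C) q ε δ' → Easy (fun _ => True) q ε δ)) ∧
    ∀ {ι : Type} [Finite ι] (V : ι → Type) [∀ i, Finite (V i)] (H : ∀ i, SimpleGraph (V i)),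
      (∀ i, (H i).IsAcyclic → ∀ I, I ≠ [] → On (NoSub H) I →
        Clustered (1 / (8 * Nat.card (V i) ^ 2)) I) ∧
      ((∀ i, ¬ (H i).IsAcyclic) → (UGC (On (NoSub H)) ↔ UGC fun _ => True)) := by
  classical
  refine ⟨fun Cl M γ hCl => ⟨fun q ε δ hq h => easy_of_clustered hCl hq h, fun hγ hU =>
    collapse hγ hCl hU⟩, ⟨fun {ι} _ V _ H => ⟨fun i hi => sideClusteredM_of_noIndM H i hi,
    noForest V H⟩, fun q δ δ' hq h => regular_UG hq h⟩,
    ⟨fun γ δ h0 h1 h => hard_clus_UG h0 h1 h, ugc_iff_clustered,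
    fun r hr => ⟨fun I hI h => clustered_of_leftReg hr hI h, fun δ h => hard_left_UG hr h⟩,
    ugc_iff_leftReg⟩, ⟨fun g C hC => ⟨fun D hD hs I hI hJ =>
      clustered_of_sparse hD hs hI hJ, fun h => ((lift_dichotomy g C hC).2 h).1⟩, ?_⟩, ?_⟩
  · intro q δ δ' hq h
    obtain ⟨d, hd⟩ := LF.exists_reduction_UG hq h
    refine ⟨d, fun g C hC hs ε => ?_⟩
    unfold Sparse at hs
    push Not at hs
    obtain ⟨V, hV, G, hG, hCG, hcard⟩ := hs
    obtain ⟨F, hF, hCl, hY, hN⟩ := hd V G g hG hcard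
    have hCl' : ∀ I, IsGame q I → True → On C (F I) := by
      intro I hI _
      obtain ⟨hS, hg, n, hn, hl⟩ := hCl I hI
      exact ⟨hS, hC V _ G _ n hn hCG hl hg⟩
    exact ⟨fun h => hard_of_reduction h hF hCl' (hY ε) hN,
      fun h => easy_of_reduction h hF hCl' (hY ε) hN⟩
  intro ι _ V _ H
  refine ⟨fun i hi I hI hJ => ?_, fun hH => ?_⟩
  · rcases Nat.eq_zero_or_pos (Nat.card (V i)) with h0 | hpos
    · exfalso
      have h1 : IsEmpty (V i) := by
        rcases Nat.card_eq_zero.1 h0 with h | h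
        · exact h
        · exact absurd (inferInstance : Finite (V i)) (not_finite_iff_infinite.2 h)
      exact hJ.2 i ⟨⟨⟨fun a => isEmptyElim a, fun {a} => isEmptyElim a⟩,
        fun a => isEmptyElim a⟩⟩
    · exact clustered_of_sparse hpos (sparse_of_forest H hi) hI hJ
  · obtain ⟨g, hg, hs⟩ := liftClosed_of_cycles H hH
    exact ((lift_dichotomy g _ hg).2 hs).1

end Pool.Agent.Results.MP_325f1f_lc.ClusteringDichotomy
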