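import Pool.Agent.H697.RT.Deg

/-!
# Unique games on lift-closed classes of graphs: the exact threshold

Let `C` be a class of graphs such that for every finite member `G` there is a number `g` such that
all finite lifts (coverings) of `G` of girth greater than `g` belong to `C`.  For a real number `t`
let `ThrC t C` be the condition

  `e(S) ≤ |S| + (1 - t) |E(G)|` for all finite `G` in `C` without isolated vertices and all sets `S`
  of vertices of `G`, where `e(S)` is the number of the edges with both ends in `S`.

So the threshold of the class, the least upper bound `t*` of all such `t`, is the infimum of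
`(|E(G)| - e(S) + |S|) / |E(G)|`.  For hereditary classes it is the infimum of `1` and of
`|V(G)| / |E(G)|`, that is, `2` divided by the least upper bound of the average degrees, if this is
at least `2`.

1. If `ThrC t C` holds and `ε + δ < t`, then for every alphabet the games on `C` of value at least
   `1 - ε` and the games on `C` of value at most `δ` are told apart in polynomial time.
2. If `ThrC t C` does not hold, then there is a `δ > 0` such that for every alphabet `q` and every `ε`
   the problem to tell value at least `1 - ε` from value at most `t` is hard for the games on `C`, if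
   the problem to tell value at least `1 - ε` from value at most `δ` is hard for all games, where
   hard means `NP`-hard under randomised reductions with one-sided error.
3. So if the Unique Games Conjecture holds (with randomised reductions), then for every `t > t*`
   and every `ε > 0` there is an alphabet such that the problem for `1 - ε` and `t` on `C` is hard,
   and it is not in `P`, unless `NP ⊆ coRP`.
4. For the graphs with all degrees at most `d ≥ 2` and girth greater than `g` the threshold is
   `2 / d`.  The Unique Games Conjecture (with randomised reductions) is equivalent to the statement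
   that for all `d`, for these graphs, all `t > 2 / d` and all `ε > 0`, the problem for `1 - ε` and
   `t` is hard for some alphabet.

The definitions used in the statement are in `Pool/Agent/H697/RT/UGHard.lean` (`LiftStable`, `ThrC`,
`RUGC`), `Pool/Agent/H697/RT/Red.lean` (`Thr`), `Pool/Agent/H697/RT/RHard.lean` (`RHard`,
`InCoRP`), `Pool/Agent/H697/RT/Deg.lean` (`Hereditary`, `Deg`), `Pool/Agent/H697/LF/Bound.lean`
(`GraphClass`, `On`), `Pool/Agent/H697/LF/Lift.lean` (`graphOf`, `IsLift`),
`Pool/Agent/H697/Exp/Girth.lean` (`GirthGT`), `Pool/Agent/H697/UG/Hard.lean` (`Hard`, `Easy`,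
`UGC`), `Pool/Agent/H697/UG/Defs.lean` (`Game`, `IsGame`, `Sat`, `numSat`, `Yes`, `No`, `Simple`,
`cgraph`), `Pool/Agent/H697/Forest/Bip.lean` (`bip`) and `Pool/Graph/R_seed8/NPC/` (`PolyTime`,
`InNP`, `InPP`, `bits`, `pairBits`).
-/

namespace Pool.Agent.Results.MP_325f1f_lc.ExactThreshold

open Pool.Agent.H697 Pool.Agent.NPC Pool.Agent.H697.UG Pool.Agent.H697.LF Pool.Agent.H697.RT
  Pool.Agent.H697.Exp

/-- The exact threshold of a lift-closed class. -/
theorem result :
    (∀ C : GraphClass, LiftStable C → ∀ t : ℝ,
      (ThrC t C → ∀ (q : ℕ) (ε δ : ℝ), 0 < q → ε + δ < t → Easy (On C) q ε δ) ∧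
      (¬ ThrC t C →
        (∃ δ : ℝ, 0 < δ ∧ ∀ (q : ℕ) (ε : ℝ), 0 < q →
          RHard (fun _ => True) (Yes q ε) (No q δ) → RHard (On C) (Yes q ε) (No q t)) ∧
        (RUGC (fun _ => True) → ∀ ε : ℝ, 0 < ε →
          ∃ q : ℕ, 0 < q ∧ RHard (On C) (Yes q ε) (No q t))) ∧
      (Hereditary C → t ≤ 1 → (ThrC t C ↔ ∀ (V : Type) [Finite V] (G : SimpleGraph V), C V G →
        t * G.edgeSet.ncard ≤ Nat.card V))) ∧
    (∀ d g : ℕ, 2 ≤ d → LiftStable (Deg d g) ∧ ∀ t : ℝ, ThrC t (Deg d g) ↔ t ≤ 2 / d) ∧
    (∀ g : ℕ, RUGC (fun _ => True) ↔ ∀ d : ℕ, 2 ≤ d → ∀ t ε : ℝ, 2 / d < t → 0 < ε →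
      ∃ q : ℕ, 0 < q ∧ RHard (On (Deg d g)) (Yes q ε) (No q t)) ∧
    (UGC (fun _ => True) → RUGC (fun _ => True)) ∧
    ∀ (Cl : Game → Prop) (q : ℕ) (ε δ : ℝ), RHard Cl (Yes q ε) (No q δ) → Easy Cl q ε δ →
      ∀ L : Set (List Bool), InNP L → InCoRP L := by
  refine ⟨fun C hC t => ⟨fun h q ε δ hq hεδ => easy_thr hq h hεδ, fun h =>
    ⟨rhard_class hC h, fun hU ε hε => rhard_of_RUGC hC h hU hε⟩, fun hH ht => thrC_iff hH ht⟩,
    fun d g hd => ⟨liftStable_Deg d g, fun t => ⟨fun h => ?_, fun h => thrC_Deg hd g h⟩⟩,
    rugc_iff, rugc_of_ugc, fun Cl q ε δ h h' => h.collapse h'⟩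
  by_contra hcon
  exact not_thrC_Deg hd g (not_le.1 hcon) h

end Pool.Agent.Results.MP_325f1f_lc.ExactThreshold
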