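import Pool.Agent.H698.HF.Main

/-! # Unique games on graphs without an induced subgraph `H`: a dichotomy

`Game X Q` (in Pool/Agent/H698/SF/Defs.lean): a unique game on a simple graph with the vertex set `X`
and the alphabet `Q`; `pairs` and `sat l` are twice the numbers of all edges and of the edges
satisfied by `l`. `H ↪g g.G` are the embeddings of `H` as an induced subgraph of the graph of `g`.
`Bip H`: `H` is bipartite. `Split H`: `H` is a split graph. `hubLabelling g σ τ r` is the labelling
that is computed from two orders `σ`, `τ` of the vertices and the roles `r`. `ext g C K` is the new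
game of the reduction (all in Pool/Agent/H698/HF/Defs.lean). -/

set_option autoImplicit false

open scoped Classical
open Finset
open Pool.Agent.H698.SF (Game)
open Pool.Agent.H698.HF

namespace Pool.Agent.Results.MP_325f1f_lc.InducedSubgraphDichotomy

theorem result (W : Type) [Fintype W] (H : SimpleGraph W) :
    (Bip H ∧ Split H → ∃ c : ℝ, 0 < c ∧
      ∀ (X Q : Type) [Fintype X] [Fintype Q] [Nonempty Q] (g : Game X Q), IsEmpty (H ↪g g.G) →
        ∀ l : X → Q,
          c * g.pairs - 3 * ((g.pairs : ℝ) - g.sat l) ≤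
            (∑ s : Pool.Agent.H698.SF.Ord X × Pool.Agent.H698.SF.Ord X × (X → Bool),
              (g.sat (hubLabelling g s.1 s.2.1 s.2.2) : ℝ)) /
              Fintype.card (Pool.Agent.H698.SF.Ord X × Pool.Agent.H698.SF.Ord X × (X → Bool))) ∧
    (¬ (Bip H ∧ Split H) →
      ∀ (X Q : Type) [Fintype X] (g : Game X Q) (N K : ℕ), 0 < N →
        N * Fintype.card X ^ 2 ≤ K → 0 < g.pairs →
        IsEmpty (H ↪g (ext g (Bip H) K).G) ∧ 0 < (ext g (Bip H) K).pairs ∧
        (∀ (ε : ℝ) (l : X → Q), (1 - ε) * g.pairs ≤ g.sat l →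
          (1 - ε - 1 / N) * (ext g (Bip H) K).pairs ≤
            ((ext g (Bip H) K).sat fun u => l u.1)) ∧
        ∀ δ : ℝ, (∀ l : X → Q, (g.sat l : ℝ) ≤ δ * g.pairs) →
          ∀ m : X × Option (Fin K) → Q,
            ((ext g (Bip H) K).sat m : ℝ) ≤ (2 * δ + 1 / N) * (ext g (Bip H) K).pairs) := by
  constructor
  · rintro ⟨h1, h2⟩
    exact easy allAlg allStruct emb H h1 h2
  · intro h X Q _ g N K hN hK hp
    obtain ⟨a, b, c⟩ := red X Q g (Bip H) N K hN hK hp
    exact ⟨free W H h X Q g K, a, b, c⟩

end Pool.Agent.Results.MP_325f1f_lc.InducedSubgraphDichotomy
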