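import Pool.Agent.H698.SF.Main

/-! # Unique games on graphs without induced stars with `r + 1` leaves

`Game X Q`: a unique game on a simple graph with the vertex set `X` and the alphabet `Q`; `pairs` and
`sat l` are twice the numbers of all edges and of the edges satisfied by `l`. `StarFree r G`: `G` has
no induced star with `r + 1` leaves. `pivotLabelling g σ` is the pivot labelling for the vertex order
`σ`. `BGame U V E Q`: a bipartite unique game with the edge set `E`; `red g r K` is the new game. -/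

set_option autoImplicit false

open scoped Classical
open Finset
open Pool.Agent.H698.SF

namespace Pool.Agent.Results.MP_325f1f_lc.StarFreeThreshold

theorem result (r : ℕ) (hr : 2 ≤ r) :
    (∀ (X Q : Type) [Fintype X] [Fintype Q] [Nonempty Q] (g : Game X Q) (l : X → Q),
      StarFree r g.G →
      (g.pairs : ℝ) / (2 * r - 1) - 3 * ((g.pairs : ℝ) - g.sat l) ≤
        (∑ σ : Pool.Agent.H698.SF.Ord X, (g.sat (pivotLabelling g σ) : ℝ)) / Fintype.card (Pool.Agent.H698.SF.Ord X)) ∧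
    ∀ η : ℝ, 0 < η → ∃ δ : ℝ, 0 < δ ∧ ∃ K₀ : ℕ, ∀ K : ℕ, K₀ ≤ K →
      ∀ (U V E Q : Type) [Fintype U] [Fintype V] [Fintype E] [Fintype Q] [Nonempty U]
        [Nonempty Q] (g : BGame U V E Q) (a b : ℕ), 0 < a → 0 < b → g.Regular a b →
        StarFree r (red g r K).G ∧ 0 < (red g r K).pairs ∧
        Fintype.card (Vtx g r K) = Fintype.card V * (b * K) ^ r ∧
        (∀ ε : ℝ, 0 ≤ ε → (∃ l l', (1 - ε) * Fintype.card E ≤ (g.sat l l' : ℝ)) →
          ∃ l : Vtx g r K → Q,
            (1 - 3 * ε) * (red g r K).pairs ≤ ((red g r K).sat l : ℝ)) ∧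
        ((∀ l l', (g.sat l l' : ℝ) ≤ δ * Fintype.card E) →
          ∀ l : Vtx g r K → Q,
            ((red g r K).sat l : ℝ) ≤ (1 / (2 * r - 1) + η) * (red g r K).pairs) := by
  obtain ⟨m, rfl⟩ : ∃ m, r = m + 2 := ⟨r - 2, by omega⟩
  refine ⟨fun X Q _ _ _ g l h => average g (by omega) h l, ?_⟩
  intro η hη
  obtain ⟨δ, hδ, K₀, h⟩ := optimal m η hη
  refine ⟨δ, hδ, max K₀ (2 * ((m + 2) ^ 2 + 1)), ?_⟩
  intro K hK U V E Q _ _ _ _ _ _ g a b ha hb hg
  obtain ⟨h1, h2, h3⟩ := h K ((le_max_left _ _).trans hK) U V E Q g a b ha hb hg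
  have hK2 : 2 * ((m + 2) ^ 2 + 1) ≤ K := (le_max_right _ _).trans hK
  refine ⟨h1, ?_, ?_, ?_, ?_⟩
  · have hK0 : 0 < K := by
      have : 0 < 2 * ((m + 2) ^ 2 + 1) := by positivity
      omega
    have h4 := pairs_ge g hg (m := m) (K := K) ha hb hK0
    have hK' : (0 : ℝ) < K := by exact_mod_cast hK0
    have ha' : (0 : ℝ) < a := by exact_mod_cast ha
    have hb' : (0 : ℝ) < b := by exact_mod_cast hb
    have hU : 0 < Fintype.card U := Fintype.card_pos
    have hn : (0 : ℝ) < Fintype.card (U × Fin K) := by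
      rw [Fintype.card_prod, Fintype.card_fin]
      exact_mod_cast Nat.mul_pos hU hK0
    have h5 : (((m : ℝ) + 2) ^ 2 + 1) / K ≤ 1 / 2 := by
      rw [div_le_iff₀ hK']
      have : ((2 * ((m + 2) ^ 2 + 1) : ℕ) : ℝ) ≤ K := by exact_mod_cast hK2
      push_cast at this
      linarith
    have h6 : 0 < (Fintype.card (U × Fin K) : ℝ) *
        ((m + 2) * a * (b * K : ℝ) ^ (m + 1)) ^ 2 * (1 - ((m + 2) ^ 2 + 1) / K) := by
      apply mul_pos
      · positivity
      · linarith
    exact_mod_cast h6.trans_le h4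
  · have := card_vtx g hg (m := m) (K := K)
    exact_mod_cast this
  · rintro ε hε ⟨l, l', hl⟩
    exact ⟨fun x => l' x.1, h2 l l' ε hε hl⟩
  · intro hδ' l
    have := h3 hδ' l
    have e : (2 * ((m + 2 : ℕ) : ℝ) - 1) = 2 * m + 3 := by push_cast; ring
    rw [e]
    exact this

end Pool.Agent.Results.MP_325f1f_lc.StarFreeThreshold
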